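import Pool.Agent.T9h16.QI.Spec
import Pool.Agent.T9h41.QE.ThrE

/-!
# (E) The middle terms of the second moment at the threshold
-/

set_option autoImplicit false

namespace Pool.Agent.T9h41.QI

open Finset
open Pool.Agent.T9h16.QL (meanCl ratio2)
open Pool.Agent.T9h16.QI
open Pool.Agent.T9h41.QL (two_choose choose_ge)
open Pool.Agent.T9h41.QE (small_pow)

/-- Small intersections. -/
lemma small {n k j : ℕ} {p : ℝ} (hp : 0 < p) (hp1 : p ≤ 1) (hk : 3 ≤ k) (hkn : k ^ 10 ≤ n)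
    (hj : 2 ≤ j) (hjk : 2 * j ≤ k + 1) (hlow : 1 / 4 ≤ (n : ℝ) ^ k * p ^ (k.choose 2)) :
    (k.choose j : ℝ) * ((n - k).choose (k - j) : ℝ) * p ^ (k.choose 2 - j.choose 2) ≤
      (n.choose k : ℝ) * p ^ (k.choose 2) * (4 * (k : ℝ) ^ 4 / n) := by
  have hjk' : j ≤ k := by omega
  have hk1 : 1 ≤ k := by omega
  have hn : k ≤ n := (Nat.le_self_pow (by norm_num) k).trans hkn
  have hn0 : (0 : ℝ) < n := by exact_mod_cast (by omega : 0 < n)
  have hkR : (1 : ℝ) ≤ k := by exact_mod_cast hk1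
  have hk0 : (0 : ℝ) < k := by linarith
  have hQ := small_pow hp hp1 hk hjk hlow
  obtain ⟨Q, hQd⟩ : ∃ Q : ℝ, Q = p ^ (j.choose 2) := ⟨_, rfl⟩
  rw [← hQd] at hQ
  have hQ0 : 0 < Q := by rw [hQd]; positivity
  have hsplit : p ^ (k.choose 2 - j.choose 2) = p ^ (k.choose 2) / Q := by
    rw [eq_div_iff hQ0.ne', hQd, ← pow_add, Nat.sub_add_cancel (Nat.choose_le_choose 2 hjk')]
  obtain ⟨y, hy⟩ : ∃ y : ℝ, y = 4 * (k : ℝ) ^ 4 / n := ⟨_, rfl⟩
  rw [← hy]
  have hy0 : 0 < y := by rw [hy]; positivity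
  have hy1 : y ≤ 1 := by
    rw [hy, div_le_one hn0]
    have h6 : 4 * k ^ 4 ≤ n := by
      calc 4 * k ^ 4 ≤ k ^ 6 * k ^ 4 := by
            refine Nat.mul_le_mul_right _ ?_
            calc 4 ≤ 3 ^ 6 := by norm_num
              _ ≤ k ^ 6 := Nat.pow_le_pow_left hk 6
        _ = k ^ 10 := by ring
        _ ≤ n := hkn
    exact_mod_cast h6
  have hyn : y * (n / 4) = (k : ℝ) ^ 4 := by
    rw [hy]
    field_simp
  -- the binomial coefficients
  have h1 : (k.choose j : ℝ) ≤ (k : ℝ) ^ j := by exact_mod_cast Nat.choose_le_pow k j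
  have h2 : ((n - k).choose (k - j) : ℝ) * (n : ℝ) ^ j ≤ (n.choose k : ℝ) * (k : ℝ) ^ j := by
    have h3 : (n - k).choose (k - j) ≤ (n - j).choose (k - j) :=
      Nat.choose_le_choose _ (by omega)
    have h4 := Pool.Agent.T9h41.QC.choose_le hn hjk'
    have h5 : (n - k).choose (k - j) * n ^ j ≤ n.choose k * k ^ j :=
      (Nat.mul_le_mul_right _ h3).trans h4
    exact_mod_cast h5
  -- the power of `k`
  have h3 : (k : ℝ) ^ (2 * j) ≤ (n : ℝ) ^ j * Q * y := by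
    have h4 : ((k : ℝ) ^ (2 * j)) ^ 2 ≤ ((n : ℝ) ^ j * Q * y) ^ 2 := by
      calc ((k : ℝ) ^ (2 * j)) ^ 2 = ((k : ℝ) ^ 4) ^ j := by
            rw [← pow_mul, ← pow_mul]
            congr 1
            ring
        _ = y ^ j * ((n : ℝ) / 4) ^ j := by rw [← hyn, mul_pow]
        _ ≤ y ^ 2 * ((n : ℝ) / 4) ^ j := by
            refine mul_le_mul_of_nonneg_right ?_ (by positivity)
            exact pow_le_pow_of_le_one hy0.le hy1 hj
        _ = y ^ 2 * ((n : ℝ) ^ (2 * j) / (4 * (n : ℝ)) ^ j) := by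
            congr 1
            rw [pow_mul, ← div_pow]
            congr 1
            field_simp
        _ ≤ y ^ 2 * ((n : ℝ) ^ (2 * j) / (4 * (n : ℝ)) ^ j * (Q ^ 2 * (4 * (n : ℝ)) ^ j)) := by
            refine mul_le_mul_of_nonneg_left ?_ (by positivity)
            exact le_mul_of_one_le_right (by positivity) hQ
        _ = ((n : ℝ) ^ j * Q * y) ^ 2 := by
            rw [mul_pow ((n : ℝ) ^ j * Q), mul_pow ((n : ℝ) ^ j), ← pow_mul, mul_comm j 2]
            field_simp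
    exact (pow_le_pow_iff_left₀ (by positivity) (by positivity) two_ne_zero).1 h4
  have hpk : 0 < p ^ (k.choose 2) := by positivity
  rw [hsplit]
  have h4 : (k.choose j : ℝ) * ((n - k).choose (k - j) : ℝ) * (n : ℝ) ^ j ≤
      (n.choose k : ℝ) * Q * y * (n : ℝ) ^ j := by
    calc (k.choose j : ℝ) * ((n - k).choose (k - j) : ℝ) * (n : ℝ) ^ j
        = (k.choose j : ℝ) * (((n - k).choose (k - j) : ℝ) * (n : ℝ) ^ j) := by ring
      _ ≤ (k : ℝ) ^ j * ((n.choose k : ℝ) * (k : ℝ) ^ j) := by gcongr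
      _ = (n.choose k : ℝ) * (k : ℝ) ^ (2 * j) := by ring
      _ ≤ (n.choose k : ℝ) * ((n : ℝ) ^ j * Q * y) := by gcongr
      _ = _ := by ring
  have h5 : (k.choose j : ℝ) * ((n - k).choose (k - j) : ℝ) ≤ (n.choose k : ℝ) * Q * y :=
    le_of_mul_le_mul_right h4 (by positivity)
  calc (k.choose j : ℝ) * ((n - k).choose (k - j) : ℝ) * (p ^ (k.choose 2) / Q)
      ≤ (n.choose k : ℝ) * Q * y * (p ^ (k.choose 2) / Q) := by gcongr
    _ = (n.choose k : ℝ) * p ^ (k.choose 2) * y := by field_simp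

/-- Large intersections. -/
lemma large {n k j : ℕ} {p : ℝ} (hp : 0 < p) (hp1 : p ≤ 1) (hkn : k ^ 10 ≤ n)
    (hn : 2 ^ 12 ≤ n) (hjk : k + 1 < 2 * j) (hj2 : j < k)
    (h : p ^ (k - 1) ≤ (4 * k / n) ^ 2) :
    ((k.choose j : ℝ) * ((n - k).choose (k - j) : ℝ) * p ^ (k.choose 2 - j.choose 2)) ^ 4 ≤
      2 ^ 12 / n := by
  obtain ⟨j', rfl⟩ : ∃ j', j = j' + 1 := ⟨j - 1, by omega⟩
  obtain ⟨i, rfl⟩ : ∃ i, k = j' + 1 + i := ⟨k - (j' + 1), by omega⟩
  have hi : 1 ≤ i := by omega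
  have hij : i ≤ j' + 2 := by omega
  have hn0 : (0 : ℝ) < n := by exact_mod_cast (by omega : 0 < n)
  have hnR : (2 : ℝ) ^ 12 ≤ n := by exact_mod_cast hn
  have hE := two_choose j' i
  obtain ⟨E, hEd⟩ : ∃ E : ℕ, E = (j' + 1 + i).choose 2 - (j' + 1).choose 2 := ⟨_, rfl⟩
  rw [← hEd] at hE ⊢
  rw [show j' + 1 + i - (j' + 1) = i by omega]
  rw [show j' + 1 + i - 1 = j' + i by omega] at h
  have hsymm : (j' + 1 + i).choose (j' + 1) = (j' + 1 + i).choose i := by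
    rw [← Nat.choose_symm (show i ≤ j' + 1 + i by omega)]
    congr 1
    omega
  rw [hsymm]
  have h1 : ((j' + 1 + i).choose i : ℝ) ≤ ((j' + 1 + i : ℕ) : ℝ) ^ i := by
    exact_mod_cast Nat.choose_le_pow (j' + 1 + i) i
  have h2 : ((n - (j' + 1 + i)).choose i : ℝ) ≤ (n : ℝ) ^ i := by
    have h3 : (n - (j' + 1 + i)).choose i ≤ (n - (j' + 1 + i)) ^ i := Nat.choose_le_pow _ _
    have h4 : (n - (j' + 1 + i)) ^ i ≤ n ^ i := Nat.pow_le_pow_left (Nat.sub_le _ _) _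
    exact_mod_cast h3.trans h4
  obtain ⟨K, hK⟩ : ∃ K : ℕ, K = j' + 1 + i := ⟨_, rfl⟩
  rw [← hK] at h h1 h2 hkn ⊢
  have hK0 : (0 : ℝ) < K := by exact_mod_cast (by omega : 0 < K)
  have hK10 : (K : ℝ) ^ 10 ≤ n := by exact_mod_cast hkn
  have hbase0 : 2 ^ 12 * (K : ℝ) ^ 10 / (n : ℝ) ^ 2 ≤ 2 ^ 12 / n := by
    rw [div_le_div_iff₀ (by positivity) hn0]
    calc 2 ^ 12 * (K : ℝ) ^ 10 * n ≤ 2 ^ 12 * (n : ℝ) * n := by gcongr
      _ = 2 ^ 12 * (n : ℝ) ^ 2 := by ring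
  have hbase : 2 ^ 12 * (K : ℝ) ^ 10 / (n : ℝ) ^ 2 ≤ 1 := by
    refine hbase0.trans ?_
    rw [div_le_one hn0]
    exact hnR
  have hx : ((K : ℝ) ^ i * (n : ℝ) ^ i * p ^ E) ^ 4 ≤ 2 ^ 12 / n := by
    calc ((K : ℝ) ^ i * (n : ℝ) ^ i * p ^ E) ^ 4
        = ((K : ℝ) * n) ^ (4 * i) * p ^ (2 * (2 * E)) := by
          ring
      _ ≤ ((K : ℝ) * n) ^ (4 * i) * p ^ ((j' + i) * (3 * i)) := by
          refine mul_le_mul_of_nonneg_left ?_ (by positivity)
          refine pow_le_pow_of_le_one hp.le hp1 ?_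
          rw [hE]
          nlinarith
      _ = ((K : ℝ) * n) ^ (4 * i) * (p ^ (j' + i)) ^ (3 * i) := by rw [pow_mul p]
      _ ≤ ((K : ℝ) * n) ^ (4 * i) * ((4 * K / n) ^ 2) ^ (3 * i) := by gcongr
      _ = (2 ^ 12 * (K : ℝ) ^ 10 / (n : ℝ) ^ 2) ^ i := by
          rw [pow_mul, pow_mul, ← mul_pow]
          congr 1
          field_simp
          ring
      _ ≤ (2 ^ 12 * (K : ℝ) ^ 10 / (n : ℝ) ^ 2) ^ 1 :=
          pow_le_pow_of_le_one (by positivity) hbase hi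
      _ ≤ _ := by rw [pow_one]; exact hbase0
  refine le_trans ?_ hx
  gcongr

/-- **(E)** -/
theorem stMid : StMid := by
  refine ⟨2 ^ 120, ?_⟩
  intro n k a L hn hk hkn ha haL hM1 hM2
  have hkn' : k ≤ n := (Nat.le_self_pow (by norm_num) k).trans hkn
  have hn2k : 2 * k ≤ n := by
    calc 2 * k ≤ k ^ 9 * k := by
          refine Nat.mul_le_mul_right _ ?_
          calc 2 ≤ 3 ^ 9 := by norm_num
            _ ≤ k ^ 9 := Nat.pow_le_pow_left hk 9
      _ = k ^ 10 := by ring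
      _ ≤ n := hkn
  have hn12 : 2 ^ 12 ≤ n := le_trans (Nat.pow_le_pow_right (by norm_num) (by norm_num)) hn
  have hn0 : (0 : ℝ) < n := by exact_mod_cast (by omega : 0 < n)
  have hn1 : (1 : ℝ) ≤ n := by exact_mod_cast (by omega : 1 ≤ n)
  have hnR : (2 : ℝ) ^ 120 ≤ n := by exact_mod_cast hn
  have hnR12 : (2 : ℝ) ^ 12 ≤ n := by exact_mod_cast hn12
  have haR : (0 : ℝ) < a := by exact_mod_cast ha
  have hLR : (0 : ℝ) < L := by exact_mod_cast (by omega : 0 < L)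
  obtain ⟨p, hpd⟩ : ∃ p : ℝ, p = (a : ℝ) / L := ⟨_, rfl⟩
  rw [← hpd] at hM1 hM2 ⊢
  have hp : 0 < p := by rw [hpd]; positivity
  have hp1 : p ≤ 1 := by
    rw [hpd, div_le_one hLR]
    exact_mod_cast haL
  have hk0 : (0 : ℝ) < k := by exact_mod_cast (by omega : 0 < k)
  have hk3 : (3 : ℝ) ≤ k := by exact_mod_cast hk
  have hK10 : (k : ℝ) ^ 10 ≤ n := by exact_mod_cast hkn
  have hch := choose_ge (by omega : 1 ≤ k) hn2k
  obtain ⟨M, hMd⟩ : ∃ M : ℝ, M = meanCl n k p := ⟨_, rfl⟩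
  have hMdef : M = (n.choose k : ℝ) * p ^ (k.choose 2) := hMd
  rw [← hMd] at hM1 hM2
  have hM0 : 0 < M := by linarith
  -- the upper bound for `p`
  have hpc : p ^ (k.choose 2) ≤ (4 * k / n) ^ k := by
    have h2 : ((n : ℝ) / (2 * k)) ^ k * p ^ (k.choose 2) ≤ 4 := by
      calc ((n : ℝ) / (2 * k)) ^ k * p ^ (k.choose 2) ≤ (n.choose k : ℝ) * p ^ (k.choose 2) := by
            gcongr
        _ ≤ 4 := by rw [← hMdef]; exact hM2
    have h4 : (4 : ℝ) ≤ 2 ^ k := by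
      calc (4 : ℝ) = 2 ^ 2 := by norm_num
        _ ≤ 2 ^ k := pow_le_pow_right₀ (by norm_num) (by omega)
    calc p ^ (k.choose 2) = (2 * k / n) ^ k * (((n : ℝ) / (2 * k)) ^ k * p ^ (k.choose 2)) := by
          rw [← mul_assoc, ← mul_pow]
          have : (2 * (k : ℝ) / n) * (n / (2 * k)) = 1 := by field_simp
          rw [this, one_pow, one_mul]
      _ ≤ (2 * k / n) ^ k * 2 ^ k := by
          refine mul_le_mul_of_nonneg_left (h2.trans h4) (by positivity)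
      _ = (4 * k / n) ^ k := by
          rw [← mul_pow]
          congr 1
          ring
  have hpk : p ^ (k - 1) ≤ (4 * k / n) ^ 2 := by
    have h3 : (p ^ (k - 1)) ^ k ≤ ((4 * k / n) ^ 2) ^ k := by
      calc (p ^ (k - 1)) ^ k = (p ^ (k.choose 2)) ^ 2 := by
            rw [← pow_mul, ← pow_mul]
            congr 1
            have h3 : 2 ∣ k * (k - 1) := (Nat.even_mul_pred_self _).two_dvd
            rw [Nat.choose_two_right, Nat.div_mul_cancel h3, mul_comm]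
        _ ≤ ((4 * k / n) ^ k) ^ 2 := by gcongr
        _ = _ := by rw [← pow_mul, ← pow_mul, mul_comm k 2]
    exact (pow_le_pow_iff_left₀ (by positivity) (by positivity) (by omega : k ≠ 0)).1 h3
  have hlow : 1 / 4 ≤ (n : ℝ) ^ k * p ^ (k.choose 2) := by
    refine hM1.trans ?_
    rw [hMdef]
    have : (n.choose k : ℝ) ≤ (n : ℝ) ^ k := by exact_mod_cast Nat.choose_le_pow n k
    gcongr
  refine ⟨?_, ?_, ?_⟩
  · -- the middle terms
    have hquart : ∀ x : ℝ, 0 ≤ x → x ^ 4 ≤ 2 ^ 12 / n → x ≤ 8 * (n : ℝ) ^ (-(1 / 4) : ℝ) := by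
      intro x hx h4
      have h5 : x ^ 4 ≤ (8 * (n : ℝ) ^ (-(1 / 4) : ℝ)) ^ 4 := by
        rw [mul_pow, ← Real.rpow_natCast ((n : ℝ) ^ (-(1 / 4) : ℝ)) 4, ← Real.rpow_mul hn0.le,
          show (-(1 / 4) : ℝ) * ((4 : ℕ) : ℝ) = -1 by norm_num, Real.rpow_neg_one]
        rw [show (8 : ℝ) ^ 4 = 2 ^ 12 by norm_num, ← div_eq_mul_inv]
        exact h4
      exact (pow_le_pow_iff_left₀ hx (by positivity) (by norm_num : (4 : ℕ) ≠ 0)).1 h5
    have hterm : ∀ j ∈ Ico 2 k, ((k.choose j * (n - k).choose (k - j) : ℕ) : ℝ) *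
        p ^ (k.choose 2 - j.choose 2) ≤ 8 * (n : ℝ) ^ (-(1 / 4) : ℝ) := by
      intro j hj
      obtain ⟨hj1, hj2⟩ := mem_Ico.1 hj
      push_cast
      refine hquart _ (by positivity) ?_
      rcases Nat.lt_or_ge (k + 1) (2 * j) with hj3 | hj3
      · exact large hp hp1 hkn hn12 hj3 hj2 hpk
      · have h5 := small hp hp1 hk hkn hj1 hj3 hlow
        rw [← hMdef] at h5
        have h6 : (k.choose j : ℝ) * ((n - k).choose (k - j) : ℝ) *
            p ^ (k.choose 2 - j.choose 2) ≤ 16 * (k : ℝ) ^ 4 / n := by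
          refine h5.trans ?_
          calc M * (4 * (k : ℝ) ^ 4 / n) ≤ 4 * (4 * (k : ℝ) ^ 4 / n) := by gcongr
            _ = 16 * (k : ℝ) ^ 4 / n := by ring
        calc ((k.choose j : ℝ) * ((n - k).choose (k - j) : ℝ) *
            p ^ (k.choose 2 - j.choose 2)) ^ 4 ≤ (16 * (k : ℝ) ^ 4 / n) ^ 4 := by gcongr
          _ = 2 ^ 16 * (k : ℝ) ^ 16 / (n : ℝ) ^ 4 := by ring
          _ ≤ 2 ^ 12 / n := by
              rw [div_le_div_iff₀ (by positivity) hn0]
              have h7 : (k : ℝ) ^ 16 ≤ (n : ℝ) ^ 2 := by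
                calc (k : ℝ) ^ 16 ≤ (k : ℝ) ^ 20 := pow_le_pow_right₀ (by linarith) (by norm_num)
                  _ = ((k : ℝ) ^ 10) ^ 2 := by ring
                  _ ≤ (n : ℝ) ^ 2 := by gcongr
              calc 2 ^ 16 * (k : ℝ) ^ 16 * n ≤ 2 ^ 16 * (n : ℝ) ^ 2 * n := by gcongr
                _ = 2 ^ 12 * ((2 : ℝ) ^ 4 * (n : ℝ) ^ 3) := by ring
                _ ≤ 2 ^ 12 * ((n : ℝ) * (n : ℝ) ^ 3) := by
                    have : (2 : ℝ) ^ 4 ≤ n := by linarith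
                    gcongr
                _ = 2 ^ 12 * (n : ℝ) ^ 4 := by ring
    have hkr : (k : ℝ) ≤ (n : ℝ) ^ (1 / 10 : ℝ) := by
      have h5 : ((k : ℝ) ^ 10) ^ (1 / 10 : ℝ) ≤ (n : ℝ) ^ (1 / 10 : ℝ) :=
        Real.rpow_le_rpow (by positivity) hK10 (by norm_num)
      rwa [← Real.rpow_natCast (k : ℝ) 10, ← Real.rpow_mul hk0.le,
        show ((10 : ℕ) : ℝ) * (1 / 10 : ℝ) = 1 by norm_num, Real.rpow_one] at h5
    have h8 : (8 : ℝ) ≤ (n : ℝ) ^ (1 / 40 : ℝ) := by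
      have h5 : ((2 : ℝ) ^ 120) ^ (1 / 40 : ℝ) ≤ (n : ℝ) ^ (1 / 40 : ℝ) :=
        Real.rpow_le_rpow (by positivity) hnR (by norm_num)
      rw [← Real.rpow_natCast (2 : ℝ) 120, ← Real.rpow_mul (by norm_num),
        show ((120 : ℕ) : ℝ) * (1 / 40 : ℝ) = ((3 : ℕ) : ℝ) by norm_num, Real.rpow_natCast] at h5
      calc (8 : ℝ) = 2 ^ 3 := by norm_num
        _ ≤ _ := h5
    unfold midSum
    refine (Finset.sum_le_sum hterm).trans ?_
    rw [Finset.sum_const, Nat.card_Ico, nsmul_eq_mul]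
    have h9 : ((k - 2 : ℕ) : ℝ) ≤ k := by exact_mod_cast Nat.sub_le _ _
    calc ((k - 2 : ℕ) : ℝ) * (8 * (n : ℝ) ^ (-(1 / 4) : ℝ))
        ≤ (n : ℝ) ^ (1 / 10 : ℝ) * ((n : ℝ) ^ (1 / 40 : ℝ) * (n : ℝ) ^ (-(1 / 4) : ℝ)) := by
          have := h9.trans hkr
          gcongr
      _ = (n : ℝ) ^ (-(1 / 8) : ℝ) := by
          rw [← Real.rpow_add hn0, ← Real.rpow_add hn0]
          norm_num
  · -- the full clique
    have hb : 4 * (k : ℝ) / n ≤ 1 := by
      rw [div_le_one hn0]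
      have h5 : 4 * k ≤ n := by
        calc 4 * k ≤ k ^ 9 * k := by
              refine Nat.mul_le_mul_right _ ?_
              calc 4 ≤ 3 ^ 9 := by norm_num
                _ ≤ k ^ 9 := Nat.pow_le_pow_left hk 9
          _ = k ^ 10 := by ring
          _ ≤ n := hkn
      exact_mod_cast h5
    rw [Real.rpow_neg_one]
    calc p ^ (k.choose 2) ≤ (4 * k / n) ^ k := hpc
      _ ≤ (4 * k / n) ^ 3 := pow_le_pow_of_le_one (by positivity) hb hk
      _ = 64 * (k : ℝ) ^ 3 / (n : ℝ) ^ 3 := by ring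
      _ ≤ (n : ℝ)⁻¹ := by
          rw [← one_div, div_le_div_iff₀ (by positivity) hn0]
          have h7 : (k : ℝ) ^ 3 ≤ n :=
            (pow_le_pow_right₀ (by linarith) (by norm_num)).trans hK10
          calc 64 * (k : ℝ) ^ 3 * n ≤ n * n * n := by
                have : (64 : ℝ) ≤ n := by linarith
                gcongr
            _ = 1 * (n : ℝ) ^ 3 := by ring
  · -- the logarithm
    have hlog := Real.log_le_log (by norm_num) hlow
    rw [Real.log_mul (by positivity) (by positivity), Real.log_pow, Real.log_pow] at hlog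
    have h4 : Real.log (1 / 4) = -(2 * Real.log 2) := by
      rw [one_div, Real.log_inv, show (4 : ℝ) = 2 ^ 2 by norm_num, Real.log_pow]
      push_cast
      ring
    have hcast : ((k.choose 2 : ℕ) : ℝ) = k * (k - 1) / 2 := Nat.cast_choose_two ℝ k
    rw [h4, hcast] at hlog
    have hlogn : 4 * Real.log 2 ≤ Real.log n := by
      have h5 : (2 : ℝ) ^ 4 ≤ n := by linarith
      have := Real.log_le_log (by positivity) h5
      rw [Real.log_pow] at this
      push_cast at this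
      linarith
    have hl2 : 0 < Real.log 2 := Real.log_pos (by norm_num)
    have hk1 : (0 : ℝ) < (k : ℝ) - 1 := by linarith
    have hrew : Real.log (L / a) = - Real.log p := by
      rw [hpd, Real.log_div (by positivity) (by positivity),
        Real.log_div (by positivity) (by positivity)]
      ring
    rw [hrew, div_mul_eq_mul_div, le_div_iff₀ hk1]
    -- multiply by `k`
    have h5 : (k : ℝ) * (- Real.log p * (k - 1)) ≤ k * (3 * Real.log n) := by
      nlinarith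
    exact le_of_mul_le_mul_left h5 hk0

end Pool.Agent.T9h41.QI
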