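import Pool.Agent.T9h16.QI.Spec2
import Pool.Agent.T9h41.QI.Mid
import Pool.Agent.T9h35.QI.Upper

/-!
# (E2) The middle terms of the second moment at the threshold, for `k ≤ n ^ (1 / 3 - δ)`
-/

set_option autoImplicit false

namespace Pool.Agent.T9h41.QI

open Finset
open Pool.Agent.T9h16.QL (meanCl ratio2)
open Pool.Agent.T9h16.QI
open Pool.Agent.T9h41.QL (two_choose choose_ge)

/-- The factor `p ^ (j.choose 2)` for small `j`. -/
lemma small_pow' {k j : ℕ} {p z : ℝ} (hp : 0 < p) (hp1 : p ≤ 1) (hz : 0 ≤ z) (hk : 3 ≤ k)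
    (hjk : 2 * j ≤ k + 1) (hlow : 1 / 4 ≤ z ^ k * p ^ (k.choose 2)) :
    1 ≤ (p ^ (j.choose 2)) ^ 2 * (4 * z) ^ j := by
  have hk0 : k ≠ 0 := by omega
  have hexp : j.choose 2 * 2 * k ≤ k.choose 2 * j := by
    have h1 : 2 * j.choose 2 = j * (j - 1) := by
      rw [Nat.choose_two_right, Nat.mul_div_cancel' (Nat.even_mul_pred_self _).two_dvd]
    have h2 : 2 * k.choose 2 = k * (k - 1) := by
      rw [Nat.choose_two_right, Nat.mul_div_cancel' (Nat.even_mul_pred_self _).two_dvd]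
    have h3 : 2 * (j - 1) ≤ k - 1 := by omega
    have h4 : 2 * (j.choose 2 * 2 * k) ≤ 2 * (k.choose 2 * j) := by
      calc 2 * (j.choose 2 * 2 * k) = (2 * j.choose 2) * 2 * k := by ring
        _ = j * k * (2 * (j - 1)) := by rw [h1]; ring
        _ ≤ j * k * (k - 1) := Nat.mul_le_mul_left _ h3
        _ = 2 * (k.choose 2 * j) := by rw [← mul_assoc, h2]; ring
    omega
  have h1 : (1 : ℝ) ≤ ((p ^ (j.choose 2)) ^ 2 * (4 * z) ^ j) ^ k := by
    calc (1 : ℝ) ≤ (4 * (z ^ k * p ^ (k.choose 2))) ^ j := by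
          refine one_le_pow₀ ?_
          linarith
      _ ≤ ((4 : ℝ) ^ k * (z ^ k * p ^ (k.choose 2))) ^ j := by
          have : (4 : ℝ) ≤ 4 ^ k := le_self_pow₀ (by norm_num) hk0
          gcongr
      _ = p ^ (k.choose 2 * j) * (4 * z) ^ (k * j) := by
          rw [mul_pow, mul_pow, ← pow_mul, ← pow_mul, ← pow_mul, mul_pow]
          ring
      _ ≤ p ^ (j.choose 2 * 2 * k) * (4 * z) ^ (k * j) := by
          refine mul_le_mul_of_nonneg_right ?_ (by positivity)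
          exact pow_le_pow_of_le_one hp.le hp1 hexp
      _ = ((p ^ (j.choose 2)) ^ 2 * (4 * z) ^ j) ^ k := by
          rw [mul_pow ((p ^ (j.choose 2)) ^ 2), ← pow_mul, ← pow_mul, ← pow_mul, mul_comm k j,
            mul_assoc (j.choose 2)]
  by_contra hcon
  push Not at hcon
  have h2 : ((p ^ (j.choose 2)) ^ 2 * (4 * z) ^ j) ^ k < 1 :=
    pow_lt_one₀ (by positivity) hcon hk0
  linarith

/-- `n.choose k ≤ (3 n / k) ^ k`. -/
lemma choose_upper {n k : ℕ} (hk : 1 ≤ k) : (n.choose k : ℝ) ≤ (3 * (n : ℝ) / k) ^ k := by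
  have hk0 : (0 : ℝ) < k := by exact_mod_cast hk
  have hf : (0 : ℝ) < k.factorial := by exact_mod_cast k.factorial_pos
  have h1 : (n.choose k : ℝ) ≤ (n : ℝ) ^ k / k.factorial := Nat.choose_le_pow_div k n
  have h2 : (k : ℝ) ^ k / k.factorial ≤ Real.exp k := Real.pow_div_factorial_le_exp _ hk0.le k
  have h3 : Real.exp k ≤ 3 ^ k := by
    have e1 : Real.exp k = Real.exp 1 ^ k := by rw [← Real.exp_nat_mul, mul_one]
    rw [e1]
    have := Real.exp_one_lt_d9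
    gcongr
    linarith
  calc (n.choose k : ℝ) ≤ (n : ℝ) ^ k / k.factorial := h1
    _ = ((n : ℝ) / k) ^ k * ((k : ℝ) ^ k / k.factorial) := by
        rw [div_pow]
        field_simp
    _ ≤ ((n : ℝ) / k) ^ k * 3 ^ k := by
        have := h2.trans h3
        gcongr
    _ = _ := by
        rw [← mul_pow]
        congr 1
        ring

/-- Small intersections. -/
lemma lower {n k j : ℕ} {p : ℝ} (hp : 0 < p) (hp1 : p ≤ 1) (hk : 3 ≤ k) (hkn : k ≤ n)
    (hjk : 2 * j ≤ k + 1) (hM1 : 1 / 4 ≤ (n.choose k : ℝ) * p ^ (k.choose 2))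
    (hM2 : (n.choose k : ℝ) * p ^ (k.choose 2) ≤ 4) :
    ((k.choose j : ℝ) * ((n - k).choose (k - j) : ℝ) * p ^ (k.choose 2 - j.choose 2)) ^ 2 ≤
      16 * (12 * (k : ℝ) ^ 3 / n) ^ j := by
  have hjk' : j ≤ k := by omega
  have hk1 : 1 ≤ k := by omega
  have hn0 : (0 : ℝ) < n := by exact_mod_cast (by omega : 0 < n)
  have hk0 : (0 : ℝ) < k := by exact_mod_cast (by omega : 0 < k)
  have hlow : 1 / 4 ≤ (3 * (n : ℝ) / k) ^ k * p ^ (k.choose 2) := by
    refine hM1.trans ?_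
    have := choose_upper (n := n) hk1
    gcongr
  have hQ := small_pow' hp hp1 (by positivity) hk hjk hlow
  obtain ⟨Q, hQd⟩ : ∃ Q : ℝ, Q = p ^ (j.choose 2) := ⟨_, rfl⟩
  rw [← hQd] at hQ
  have hQ0 : 0 < Q := by rw [hQd]; positivity
  have hsplit : p ^ (k.choose 2 - j.choose 2) * Q = p ^ (k.choose 2) := by
    rw [hQd, ← pow_add, Nat.sub_add_cancel (Nat.choose_le_choose 2 hjk')]
  have h1 : (k.choose j : ℝ) ≤ (k : ℝ) ^ j := by exact_mod_cast Nat.choose_le_pow k j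
  have h2 : ((n - k).choose (k - j) : ℝ) ≤ (n.choose k : ℝ) * ((k : ℝ) / n) ^ j := by
    have h3 : (n - k).choose (k - j) ≤ (n - j).choose (k - j) :=
      Nat.choose_le_choose _ (by omega)
    have h4 := Pool.Agent.T9h41.QC.choose_le hkn hjk'
    have h5 : (n - k).choose (k - j) * n ^ j ≤ n.choose k * k ^ j :=
      (Nat.mul_le_mul_right _ h3).trans h4
    have h6 : ((n - k).choose (k - j) : ℝ) * (n : ℝ) ^ j ≤ (n.choose k : ℝ) * (k : ℝ) ^ j := by
      exact_mod_cast h5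
    rw [div_pow, ← mul_div_assoc, le_div_iff₀ (by positivity)]
    exact h6
  have h3 : (k.choose j : ℝ) * ((n - k).choose (k - j) : ℝ) * p ^ (k.choose 2 - j.choose 2) * Q ≤
      4 * ((k : ℝ) ^ 2 / n) ^ j := by
    calc (k.choose j : ℝ) * ((n - k).choose (k - j) : ℝ) * p ^ (k.choose 2 - j.choose 2) * Q
        = (k.choose j : ℝ) * ((n - k).choose (k - j) : ℝ) * p ^ (k.choose 2) := by
          rw [mul_assoc, hsplit]
      _ ≤ (k : ℝ) ^ j * ((n.choose k : ℝ) * ((k : ℝ) / n) ^ j) * p ^ (k.choose 2) := by gcongr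
      _ = (n.choose k : ℝ) * p ^ (k.choose 2) * ((k : ℝ) ^ 2 / n) ^ j := by
          rw [div_pow, div_pow]
          ring
      _ ≤ _ := by gcongr
  calc ((k.choose j : ℝ) * ((n - k).choose (k - j) : ℝ) * p ^ (k.choose 2 - j.choose 2)) ^ 2
      ≤ ((k.choose j : ℝ) * ((n - k).choose (k - j) : ℝ) *
          p ^ (k.choose 2 - j.choose 2)) ^ 2 * (Q ^ 2 * (4 * (3 * (n : ℝ) / k)) ^ j) :=
        le_mul_of_one_le_right (by positivity) hQ
    _ = ((k.choose j : ℝ) * ((n - k).choose (k - j) : ℝ) *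
          p ^ (k.choose 2 - j.choose 2) * Q) ^ 2 * (4 * (3 * (n : ℝ) / k)) ^ j := by ring
    _ ≤ (4 * ((k : ℝ) ^ 2 / n) ^ j) ^ 2 * (4 * (3 * (n : ℝ) / k)) ^ j := by gcongr
    _ = 16 * ((((k : ℝ) ^ 2 / n) ^ 2) * (4 * (3 * (n : ℝ) / k))) ^ j := by
        have key : ∀ X Y : ℝ, (4 * X ^ j) ^ 2 * Y ^ j = 16 * (X ^ 2 * Y) ^ j := by
          intro X Y
          rw [mul_pow (X ^ 2) Y j]
          ring
        exact key _ _
    _ = _ := by
        congr 2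
        field_simp
        ring

/-- The upper terms (helper35). -/
def StUp : Prop := ∀ δ : ℝ, 0 < δ → δ ≤ 1 / 6 → ∃ (n₀ : ℕ) (C₁ : ℝ), ∀ (n k i : ℕ) (p : ℝ),
  n₀ ≤ n → 3 ≤ k → (k : ℝ) ≤ (n : ℝ) ^ (1 / 3 - δ) → 0 < p → p < 1 → 1 / 4 ≤ meanCl n k p →
  meanCl n k p ≤ 4 → 1 ≤ i → 2 * i ≤ k →
  (k.choose i : ℝ) * ((n - k).choose i : ℝ) * p ^ (k.choose 2 - (k - i).choose 2) ≤
    (C₁ * (n : ℝ) ^ (-2 * δ)) ^ i

/-- geometric sums -/
lemma geo_up {s : ℝ} (hs : 0 ≤ s) (hs2 : s ≤ 1 / 2) (k : ℕ) :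
    ∑ j ∈ Ico 2 k, s ^ j ≤ 2 * s ^ 2 := by
  rw [Finset.sum_Ico_eq_sum_range]
  calc ∑ i ∈ range (k - 2), s ^ (2 + i) ≤ ∑ i ∈ range (k - 2), s ^ 2 * (1 / 2) ^ i := by
        refine Finset.sum_le_sum fun i _ => ?_
        rw [pow_add]
        gcongr
    _ = s ^ 2 * ∑ i ∈ range (k - 2), (1 / 2 : ℝ) ^ i := by rw [Finset.mul_sum]
    _ ≤ s ^ 2 * 2 := by
        have := sum_geometric_two_le (k - 2)
        gcongr
    _ = _ := by ring

lemma geo_down {t : ℝ} (ht : 0 ≤ t) (ht2 : t ≤ 1 / 2) (k : ℕ) :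
    ∑ j ∈ Ico 2 k, t ^ (k - j) ≤ 2 * t := by
  rw [Finset.sum_Ico_eq_sum_range]
  calc ∑ i ∈ range (k - 2), t ^ (k - (2 + i))
      ≤ ∑ i ∈ range (k - 2), t * (1 / 2) ^ (k - 2 - 1 - i) := by
        refine Finset.sum_le_sum fun i hi => ?_
        have hi' := mem_range.1 hi
        rw [show k - (2 + i) = (k - 2 - 1 - i) + 1 by omega, pow_succ, mul_comm]
        gcongr
    _ = t * ∑ i ∈ range (k - 2), (1 / 2 : ℝ) ^ i := by
        rw [← Finset.mul_sum, Finset.sum_range_reflect (fun i => (1 / 2 : ℝ) ^ i)]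
    _ ≤ t * 2 := by
        have := sum_geometric_two_le (k - 2)
        gcongr
    _ = _ := by ring

/-- **(E2)** from the upper terms -/
theorem stMid2_of (hU : StUp) : StMid2 := by
  intro δ hδ hδ6
  obtain ⟨n1, C1, hU⟩ := hU δ hδ hδ6
  obtain ⟨n2, hn2⟩ := Filter.eventually_atTop.1 (((tendsto_rpow_atTop hδ).comp
    (tendsto_natCast_atTop_atTop (R := ℝ))).eventually_ge_atTop (160 + 2 * |C1|))
  refine ⟨max n1 n2, ?_⟩
  intro n k a L hn hk hkn ha haL hM1 hM2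
  have hnd : 160 + 2 * |C1| ≤ (n : ℝ) ^ δ := hn2 n (le_trans (le_max_right _ _) hn)
  have hn1 := le_trans (le_max_left n1 n2) hn
  have haR : (0 : ℝ) < a := by exact_mod_cast ha
  have hLR : (0 : ℝ) < L := by exact_mod_cast (by omega : 0 < L)
  obtain ⟨p, hpd⟩ : ∃ p : ℝ, p = (a : ℝ) / L := ⟨_, rfl⟩
  rw [← hpd] at hM1 hM2 ⊢
  have hp : 0 < p := by rw [hpd]; positivity
  have hp1 : p ≤ 1 := by
    rw [hpd, div_le_one hLR]
    exact_mod_cast haL
  have hk0 : (0 : ℝ) < k := by exact_mod_cast (by omega : 0 < k)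
  have hk3 : (3 : ℝ) ≤ k := by exact_mod_cast hk
  have hC0 := abs_nonneg C1
  have hnN : n ≠ 0 := by
    rintro rfl
    rw [Nat.cast_zero, Real.zero_rpow hδ.ne'] at hnd
    linarith
  have hn0 : (0 : ℝ) < n := by exact_mod_cast Nat.pos_of_ne_zero hnN
  have hnge1 : (1 : ℝ) ≤ n := by exact_mod_cast Nat.one_le_iff_ne_zero.2 hnN
  have hk3n : (k : ℝ) ^ 3 ≤ (n : ℝ) ^ (1 - 3 * δ) := by
    calc (k : ℝ) ^ 3 ≤ ((n : ℝ) ^ (1 / 3 - δ)) ^ 3 := by gcongr
      _ = (n : ℝ) ^ (1 - 3 * δ) := by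
          rw [← Real.rpow_natCast, ← Real.rpow_mul hn0.le]
          congr 1
          push_cast
          ring
  have hk3n' : (k : ℝ) ^ 3 ≤ n := by
    refine hk3n.trans ?_
    calc (n : ℝ) ^ (1 - 3 * δ) ≤ (n : ℝ) ^ (1 : ℝ) :=
          Real.rpow_le_rpow_of_exponent_le hnge1 (by linarith)
      _ = n := Real.rpow_one _
  have hkN : k ^ 3 ≤ n := by exact_mod_cast hk3n'
  have h9k : 9 * k ≤ n := by
    calc 9 * k ≤ k ^ 2 * k := Nat.mul_le_mul_right _ (by nlinarith)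
      _ = k ^ 3 := by ring
      _ ≤ n := hkN
  have hkn' : k ≤ n := by omega
  have hMd : meanCl n k p = (n.choose k : ℝ) * p ^ (k.choose 2) := rfl
  rw [hMd] at hM1 hM2
  -- the full clique
  have hch := choose_ge (by omega : 1 ≤ k) (by omega : 2 * k ≤ n)
  have hpc : p ^ (k.choose 2) ≤ (4 * k / n) ^ k := by
    have h2 : ((n : ℝ) / (2 * k)) ^ k * p ^ (k.choose 2) ≤ 4 := by
      calc ((n : ℝ) / (2 * k)) ^ k * p ^ (k.choose 2) ≤ (n.choose k : ℝ) * p ^ (k.choose 2) := by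
            gcongr
        _ ≤ 4 := hM2
    have h4 : (4 : ℝ) ≤ 2 ^ k := by
      calc (4 : ℝ) = 2 ^ 2 := by norm_num
        _ ≤ 2 ^ k := pow_le_pow_right₀ (by norm_num) (by omega)
    calc p ^ (k.choose 2) = (2 * k / n) ^ k * (((n : ℝ) / (2 * k)) ^ k * p ^ (k.choose 2)) := by
          rw [← mul_assoc, ← mul_pow]
          have : (2 * (k : ℝ) / n) * (n / (2 * k)) = 1 := by field_simp
          rw [this, one_pow, one_mul]
      _ ≤ (2 * k / n) ^ k * 2 ^ k := by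
          refine mul_le_mul_of_nonneg_left (h2.trans h4) (by positivity)
      _ = (4 * k / n) ^ k := by
          rw [← mul_pow]
          congr 1
          ring
  have hfull : p ^ (k.choose 2) ≤ 64 * (n : ℝ) ^ (-2 * δ) := by
    have hb : 4 * (k : ℝ) / n ≤ 1 := by
      rw [div_le_one hn0]
      have : 4 * k ≤ n := by omega
      exact_mod_cast this
    calc p ^ (k.choose 2) ≤ (4 * k / n) ^ k := hpc
      _ ≤ (4 * k / n) ^ 3 := pow_le_pow_of_le_one (by positivity) hb hk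
      _ = 64 * ((k : ℝ) ^ 3 / (n : ℝ) ^ 3) := by ring
      _ ≤ 64 * ((n : ℝ) / (n : ℝ) ^ 3) := by gcongr
      _ = 64 * (n : ℝ) ^ (-2 : ℝ) := by
          rw [Real.rpow_neg hn0.le, show ((2 : ℝ)) = ((2 : ℕ) : ℝ) by norm_num,
            Real.rpow_natCast]
          field_simp
      _ ≤ 64 * (n : ℝ) ^ (-2 * δ) := by
          have := Real.rpow_le_rpow_of_exponent_le hnge1 (by linarith : (-2 : ℝ) ≤ -2 * δ)
          gcongr
  have hpow1 : (n : ℝ) ^ (-2 * δ) ≤ (n : ℝ) ^ (-δ) / (160 + 2 * |C1|) := by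
    rw [le_div_iff₀ (by positivity)]
    calc (n : ℝ) ^ (-2 * δ) * (160 + 2 * |C1|) ≤ (n : ℝ) ^ (-2 * δ) * (n : ℝ) ^ δ := by gcongr
      _ = (n : ℝ) ^ (-δ) := by
          rw [← Real.rpow_add hn0]
          congr 1
          ring
  have hsmall : (n : ℝ) ^ (-δ) ≤ 1 :=
    Real.rpow_le_one_of_one_le_of_nonpos hnge1 (by linarith)
  have hA : (n : ℝ) ^ (-2 * δ) * (160 + 2 * |C1|) ≤ (n : ℝ) ^ (-δ) := by
    rwa [le_div_iff₀ (by positivity)] at hpow1
  have hpn0 : 0 < (n : ℝ) ^ (-2 * δ) := Real.rpow_pos_of_pos hn0 _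
  have h3d : (n : ℝ) ^ (-3 * δ) ≤ (n : ℝ) ^ (-2 * δ) :=
    Real.rpow_le_rpow_of_exponent_le hnge1 (by linarith)
  have hp3 : 0 < (n : ℝ) ^ (-3 * δ) := Real.rpow_pos_of_pos hn0 _
  have hplt : p < 1 := by
    rcases lt_or_eq_of_le hp1 with h | h
    · exact h
    · rw [h, one_pow] at hfull
      nlinarith
  obtain ⟨w, hw⟩ : ∃ w : ℝ, w = 12 * (n : ℝ) ^ (-3 * δ) := ⟨_, rfl⟩
  have hw0 : 0 ≤ w := by rw [hw]; positivity
  have hw4 : w ≤ 1 / 4 := by
    rw [hw]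
    nlinarith
  obtain ⟨t, ht⟩ : ∃ t : ℝ, t = |C1| * (n : ℝ) ^ (-2 * δ) := ⟨_, rfl⟩
  have ht0 : 0 ≤ t := by rw [ht]; positivity
  have ht2 : t ≤ 1 / 2 := by
    rw [ht]
    nlinarith
  have hs0 := Real.sqrt_nonneg w
  have hs2 : √w ≤ 1 / 2 := by
    rw [Real.sqrt_le_left (by norm_num)]
    linarith
  have hterm : ∀ j ∈ Ico 2 k, ((k.choose j * (n - k).choose (k - j) : ℕ) : ℝ) *
      p ^ (k.choose 2 - j.choose 2) ≤ 4 * (√w) ^ j + t ^ (k - j) := by
    intro j hj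
    obtain ⟨hj1, hj2⟩ := mem_Ico.1 hj
    push_cast
    rcases Nat.lt_or_ge (k + 1) (2 * j) with hj3 | hj3
    · have h5 := hU n k (k - j) p hn1 hk hkn hp hplt hM1 hM2 (by omega) (by omega)
      rw [show k - (k - j) = j by omega, Nat.choose_symm (by omega : j ≤ k)] at h5
      refine h5.trans ?_
      have h6 : (C1 * (n : ℝ) ^ (-2 * δ)) ^ (k - j) ≤ t ^ (k - j) := by
        refine (le_abs_self _).trans ?_
        rw [abs_pow, abs_mul, abs_of_pos hpn0, ← ht]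
      have : 0 ≤ 4 * (√w) ^ j := by positivity
      linarith
    · have h5 := lower hp hp1 hk hkn' hj3 hM1 hM2
      have h6 : 12 * (k : ℝ) ^ 3 / n ≤ w := by
        rw [hw, div_le_iff₀ hn0]
        calc 12 * (k : ℝ) ^ 3 ≤ 12 * (n : ℝ) ^ (1 - 3 * δ) := by gcongr
          _ = 12 * (n : ℝ) ^ (-3 * δ) * n := by
              rw [mul_assoc, ← Real.rpow_add_one hn0.ne']
              congr 2
              ring
      have h7 : ((k.choose j : ℝ) * ((n - k).choose (k - j) : ℝ) *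
          p ^ (k.choose 2 - j.choose 2)) ^ 2 ≤ (4 * (√w) ^ j) ^ 2 := by
        refine h5.trans ?_
        calc 16 * (12 * (k : ℝ) ^ 3 / n) ^ j ≤ 16 * w ^ j := by gcongr
          _ = (4 * (√w) ^ j) ^ 2 := by
              rw [mul_pow, ← pow_mul, mul_comm j 2, pow_mul, Real.sq_sqrt hw0]
              norm_num
      have h8 := (pow_le_pow_iff_left₀ (by positivity) (by positivity) two_ne_zero).1 h7
      have : 0 ≤ t ^ (k - j) := by positivity
      linarith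
  have hsum : midSum n k p ≤ 8 * w + 2 * t := by
    unfold midSum
    refine (Finset.sum_le_sum hterm).trans ?_
    rw [Finset.sum_add_distrib, ← Finset.mul_sum]
    have h5 := geo_up hs0 hs2 k
    have h6 := geo_down ht0 ht2 k
    rw [Real.sq_sqrt hw0] at h5
    linarith
  have h9 : 8 * w + 2 * t + 64 * (n : ℝ) ^ (-2 * δ) ≤ (n : ℝ) ^ (-2 * δ) * (160 + 2 * |C1|) := by
    rw [hw, ht]
    nlinarith
  linarith

/-- **(E2)** -/
theorem stMid2 : StMid2 :=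
  stMid2_of fun δ hδ hδ6 => ⟨0, 30 / δ ^ 2, fun n k i p _ hk hkn hp _ _ hM2 hi hik =>
    Pool.Agent.T9h35.QI.upper hδ hδ6 hp hk hkn hM2 hi (by omega)⟩

end Pool.Agent.T9h41.QI
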